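import Pool.Agent.helper72.ODK.Spec2

/-! Project ODK, row MVO (second prover). -/

set_option autoImplicit false

namespace Pool.Agent.helper72.UP

open Finset

/-- the term -/
def MVO_f (N i : ℕ) : ℕ := (N + 1).choose i * N.choose i

theorem MVO_van (N : ℕ) : ∑ i ∈ range (N + 1), MVO_f N i = (2 * N + 1).choose N := by
  have h : 2 * N + 1 = (N + 1) + N := by ring
  rw [h, Nat.add_choose_eq, Finset.Nat.sum_antidiagonal_eq_sum_range_succ_mk]
  refine sum_congr rfl fun i hi => ?_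
  have hi' : i ≤ N := Nat.lt_succ_iff.mp (mem_range.mp hi)
  show (N + 1).choose i * N.choose i = (N + 1).choose i * N.choose (N - i)
  rw [Nat.choose_symm hi']

theorem MVO_sq (N : ℕ) : ∑ i ∈ range (N + 1), N.choose i ^ 2 = (2 * N).choose N := by
  have h : 2 * N = N + N := by ring
  rw [h, Nat.add_choose_eq, Finset.Nat.sum_antidiagonal_eq_sum_range_succ_mk]
  refine sum_congr rfl fun i hi => ?_
  have hi' : i ≤ N := Nat.lt_succ_iff.mp (mem_range.mp hi)
  show N.choose i ^ 2 = N.choose i * N.choose (N - i)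
  rw [Nat.choose_symm hi', sq]

theorem MVO_ind (N m : ℕ) (hm : m ≤ N) :
    (∑ i ∈ range (N + 1 - m), (MVO_f N i : ℤ)) + ∑ j ∈ Icc 1 m, (MVO_f N j : ℤ) =
      ((2 * N + 1).choose N : ℤ) + (N.choose m : ℤ) ^ 2 - 1 := by
  induction m with
  | zero =>
    have h := MVO_van N
    simp only [Nat.sub_zero, Nat.choose_zero_right, Nat.cast_one, one_pow]
    rw [← h]
    push_cast
    simp
  | succ m ih =>
    have ih' := ih (by omega)
    have h1 : N + 1 - m = (N + 1 - (m + 1)) + 1 := by omega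
    rw [h1, sum_range_succ] at ih'
    rw [sum_Icc_succ_top (by omega : 1 ≤ m + 1)]
    have h2 : N + 1 - (m + 1) = N - m := by omega
    rw [h2] at ih' ⊢
    have h3 : (MVO_f N (N - m) : ℤ) = ((N + 1).choose (m + 1) : ℤ) * (N.choose m : ℤ) := by
      have a1 : (N + 1).choose (N - m) = (N + 1).choose (m + 1) :=
        Nat.choose_symm_of_eq_add (by omega)
      have a2 : N.choose (N - m) = N.choose m := Nat.choose_symm (by omega)
      unfold MVO_f
      rw [a1, a2]
      push_cast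
      rfl
    have h4 : (MVO_f N (m + 1) : ℤ) = ((N + 1).choose (m + 1) : ℤ) * (N.choose (m + 1) : ℤ) := by
      unfold MVO_f
      push_cast
      rfl
    have h5 : ((N + 1).choose (m + 1) : ℤ) = (N.choose m : ℤ) + (N.choose (m + 1) : ℤ) := by
      rw [Nat.choose_succ_succ]
      push_cast
      rfl
    rw [h3, h5] at ih'
    rw [h4, h5]
    linear_combination ih'

/-- Row MVO. -/
theorem MVO : MVO_stmt := by
  intro N K hN h1 h2
  have hK : (2 * K + 1) / 2 = K := by omega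
  have e1 : (2 * N + 1 + 1) / 2 = N + 1 := by omega
  have e2 : (2 * N + 1) / 2 = N := by omega
  have hVV : VV (2 * N + 1) (2 * K + 1) = ∑ i ∈ Icc 1 K, MVO_f N i := by
    unfold VV
    rw [hK]
    refine sum_congr rfl fun i _ => ?_
    unfold uu MVO_f
    rw [e1, e2]
  have hle : (2 * N).choose (2 * K) ≤ (2 * N).choose N := by
    have := Nat.choose_le_middle (2 * K) (2 * N)
    have h3 : 2 * N / 2 = N := by omega
    rwa [h3] at this
  obtain ⟨h, hh⟩ : ∃ h, h = (N + 1) / 2 := ⟨_, rfl⟩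
  have hS : ∑ i ∈ Icc 1 h, MVO_f N i ≤ ∑ i ∈ Icc 1 K, MVO_f N i :=
    sum_le_sum_of_subset (Icc_subset_Icc le_rfl (by omega))
  have hS2 : ∑ i ∈ Icc 1 (N - h), MVO_f N i ≤ ∑ i ∈ Icc 1 h, MVO_f N i :=
    sum_le_sum_of_subset (Icc_subset_Icc le_rfl (by omega))
  have hind := MVO_ind N (N - h) (by omega)
  have h4 : N + 1 - (N - h) = h + 1 := by omega
  have h5 : N - h = N / 2 := by omega
  have h6 : (∑ i ∈ range (h + 1), (MVO_f N i : ℤ)) = 1 + ∑ i ∈ Icc 1 h, (MVO_f N i : ℤ) := by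
    have : range (h + 1) = insert 0 (Icc 1 h) := by
      ext x
      simp only [mem_range, mem_insert, mem_Icc]
      omega
    rw [this, sum_insert (by simp)]
    simp [MVO_f]
  rw [h4, h6] at hind
  -- central binomial coefficients
  have hZ : ((2 * N + 1).choose N : ℤ) = ((2 * N).choose N : ℤ) + ((2 * N).choose (N - 1) : ℤ) := by
    have : (2 * N + 1).choose N = (2 * N).choose (N - 1) + (2 * N).choose N := by
      obtain ⟨M, rfl⟩ : ∃ M, N = M + 1 := ⟨N - 1, by omega⟩
      rw [Nat.choose_succ_succ]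
      rfl
    rw [this]
    push_cast
    ring
  have hY : ((2 * N).choose N : ℤ) * N = ((2 * N).choose (N - 1) : ℤ) * (N + 1) := by
    have h7 := Nat.choose_succ_right_eq (2 * N) (N - 1)
    have h8 : N - 1 + 1 = N := by omega
    have h9 : 2 * N - (N - 1) = N + 1 := by omega
    rw [h8, h9] at h7
    exact_mod_cast h7
  obtain ⟨X, hX⟩ : ∃ X, X = N.choose (N / 2) := ⟨_, rfl⟩
  have hXN : N ≤ X := by
    rw [hX]
    have := Nat.choose_le_middle 1 N
    rwa [Nat.choose_one_right] at this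
  have hZX : (2 * N).choose N ≤ 2 + (N - 1) * X ^ 2 := by
    rw [← MVO_sq]
    have : range (N + 1) = insert 0 (insert N (Icc 1 (N - 1))) := by
      ext x
      simp only [mem_range, mem_insert, mem_Icc]
      omega
    rw [this, sum_insert (by simp; omega), sum_insert (by simp; omega)]
    have hb : ∑ i ∈ Icc 1 (N - 1), N.choose i ^ 2 ≤ ∑ _i ∈ Icc 1 (N - 1), X ^ 2 := by
      refine sum_le_sum fun i _ => ?_
      rw [hX]
      exact Nat.pow_le_pow_left (Nat.choose_le_middle i N) 2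
    rw [sum_const, Nat.card_Icc, smul_eq_mul] at hb
    simp only [Nat.choose_zero_right, Nat.choose_self, one_pow]
    have : N - 1 + 1 - 1 = N - 1 := by omega
    rw [this] at hb
    omega
  rw [h5, ← hX] at hind
  rw [h5] at hS2
  have hZX' : ((2 * N).choose N : ℤ) ≤ 2 + ((N : ℤ) - 1) * (X : ℤ) ^ 2 := by
    have h10 : (((N - 1 : ℕ) : ℤ)) = (N : ℤ) - 1 := by
      rw [Nat.cast_sub (by omega)]; rfl
    rw [← h10]
    exact_mod_cast hZX
  have hS2' : (∑ i ∈ Icc 1 (N / 2), (MVO_f N i : ℤ)) ≤ ∑ i ∈ Icc 1 h, (MVO_f N i : ℤ) := by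
    exact_mod_cast hS2
  have hX2 : (N : ℤ) + 2 ≤ (X : ℤ) ^ 2 := by
    have h11 : (N : ℤ) ≤ X := by exact_mod_cast hXN
    have h12 : (2 : ℤ) ≤ N := by exact_mod_cast hN
    nlinarith
  have hN' : (2 : ℤ) ≤ N := by exact_mod_cast hN
  -- Z - Y ≤ X^2 - 2
  have hdiff : ((2 * N).choose N : ℤ) - ((2 * N).choose (N - 1) : ℤ) ≤ (X : ℤ) ^ 2 - 2 := by
    have h13 : (((2 * N).choose N : ℤ) - ((2 * N).choose (N - 1) : ℤ)) * ((N : ℤ) + 1) ≤
        ((X : ℤ) ^ 2 - 2) * ((N : ℤ) + 1) := by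
      have h14 : (((2 * N).choose N : ℤ) - ((2 * N).choose (N - 1) : ℤ)) * ((N : ℤ) + 1) =
          ((2 * N).choose N : ℤ) := by linear_combination hY
      rw [h14]
      nlinarith
    exact le_of_mul_le_mul_right h13 (by linarith)
  have hfin : ((2 * N).choose N : ℤ) ≤ ∑ i ∈ Icc 1 h, (MVO_f N i : ℤ) := by
    rw [hZ] at hind
    linarith
  have hfin' : (2 * N).choose N ≤ ∑ i ∈ Icc 1 h, MVO_f N i := by exact_mod_cast hfin
  rw [hVV]
  exact hle.trans (hfin'.trans hS)

end Pool.Agent.helper72.UP
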