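import Pool.Agent.helper72.ODK.Spec

/-! Project ODK, row TOW (second prover). -/

set_option autoImplicit false

namespace Pool.Agent.helper72.UP

open Finset

theorem TOW_v1 (a c : ℕ) :
    ∑ i ∈ range (c + 2), a.choose i * (c + 2).choose (i + 1) = (a + (c + 2)).choose (c + 1) := by
  rw [Nat.add_choose_eq, Finset.Nat.sum_antidiagonal_eq_sum_range_succ_mk]
  refine sum_congr rfl fun i hi => ?_
  have hi' : i < c + 2 := mem_range.mp hi
  rw [Nat.choose_symm_of_eq_add (show c + 2 = (c + 1 - i) + (i + 1) by omega)]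

theorem TOW_v2 (a c : ℕ) :
    ∑ i ∈ range (c + 2), a.choose i * (c + 2).choose (i + 2) = (a + (c + 2)).choose c := by
  rw [sum_range_succ, Nat.choose_eq_zero_of_lt (show c + 2 < c + 1 + 2 by omega), mul_zero, add_zero,
    Nat.add_choose_eq, Finset.Nat.sum_antidiagonal_eq_sum_range_succ_mk]
  refine sum_congr rfl fun i hi => ?_
  have hi' : i < c + 1 := mem_range.mp hi
  rw [Nat.choose_symm_of_eq_add (show c + 2 = (c - i) + (i + 2) by omega)]

/-- Row TOW. -/
theorem TOW : TOW_stmt := by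
  intro a b hab hb
  obtain ⟨c, rfl⟩ : ∃ c, b = c + 2 := ⟨b - 2, by omega⟩
  have h1 : ∑ i ∈ range (c + 2), (a.choose i : ℝ) * ((c + 2).choose (i + 1) : ℝ) =
      ((a + (c + 2)).choose (c + 1) : ℝ) := by
    rw [← TOW_v1]; push_cast; rfl
  have h2 : ∑ i ∈ range (c + 2), (a.choose i : ℝ) * ((c + 2).choose (i + 2) : ℝ) =
      ((a + (c + 2)).choose c : ℝ) := by
    rw [← TOW_v2]; push_cast; rfl
  have h3 : ∑ i ∈ range (c + 2), (a.choose i : ℝ) * (((c + 2).choose (i + 1) : ℝ) - (c + 2).choose (i + 2)) =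
      ((a + (c + 2)).choose (c + 1) : ℝ) - ((a + (c + 2)).choose c : ℝ) := by
    rw [← h1, ← h2, ← sum_sub_distrib]
    exact sum_congr rfl fun i _ => by ring
  rw [h3]
  have h4 : (a + (c + 2)).choose (c + 1) * (c + 1) = (a + (c + 2)).choose c * (a + 2) := by
    have := Nat.choose_succ_right_eq (a + (c + 2)) c
    rw [this]
    congr 1
    omega
  have h5 : ((a + (c + 2)).choose (c + 1) : ℝ) * ((c : ℝ) + 1) = ((a + (c + 2)).choose c : ℝ) * ((a : ℝ) + 2) := by
    exact_mod_cast h4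
  have h6 : c + 2 - 1 = c + 1 := by omega
  rw [h6]
  have h7 : (a : ℝ) ≤ (c : ℝ) + 2 := by exact_mod_cast hab
  have h8 : (0 : ℝ) ≤ ((a + (c + 2)).choose (c + 1) : ℝ) := Nat.cast_nonneg _
  nlinarith [mul_le_mul_of_nonneg_left h7 h8]

end Pool.Agent.helper72.UP
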